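import Mathlib
import Pool.Agent.N205.SE.NCTate
import Pool.Agent.N205.SG.Count

/-!
# The noncommutative Tate conjecture: almost all abelian varieties of every Newton stratum times all
noncommutative motives

Let `g i` (`i` in a finite set `I`) be positive integers, `B` any number and `d` a number such that
either `d ≤ 2`, or `d ≤ g i` and `g i` is three or at least five, for all `i` (`DimsU`).  By Honda and
Tate the irreducible polynomials in `weilPolys (p ^ a) g` correspond to the isogeny classes of the
simple abelian varieties over the field with `q = p ^ a` elements whose field `ℚ (π)` has degree
`2 g`; the characteristic polynomial of the Frobenius is a power of the polynomial (the polynomial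
itself if `a = 1` or if the abelian variety is ordinary).

Let `S i` be a **stratum** (`IsStratum p a (g i) t (S i)`), for instance the set of the Weil
polynomials of degree `2 g i` whose Newton polygon is a given one, or lies on or above a given one,
or any set in between, or the set of the Weil polynomials of given `p`-rank. The parameter `t` may be
`a` if the `p`-rank is at least two, and any number `t ≤ a (1 - 2 λ) - 1` where `λ` is the first slope
(normalised so that the supersingular polygon has slope one half), see `StrataFacts`: so every
stratum except for the supersingular one is included as soon as `a (1 - 2 λ) ≥ 2`.

There is a constant `C`, depending only on `g`, `d` and `B`, such that the following holds.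

**(1)** For all families `f i` in `S i` with the exception of a proportion at most
`C (p ^ t) ^ (-1 / 6) log (p ^ t)`, the statement `NCTateForIndep (p ^ a) f` holds: for all `s > 0`,
`Q = q ^ s`, all abelian varieties `A` over the field `k` with `Q` elements, isogenous to products of
powers of abelian varieties coming from the field with `q` elements whose characteristic polynomials
are powers of the `f i`, and **all** smooth projective varieties `Z` over `k` such that no power
`α ^ N`, `N > 0`, of a root `α` of one of the `f i` is a product of powers (with positive or negative
exponents) of `q` and of eigenvalues of Frobenius of `Z` (`Indep`), there are finitely many products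
`D j` of divisor classes on `A`, such that for **all** smooth proper dg categories `𝒯` whose
noncommutative motive with rational coefficients is a direct summand of the one of `Z` (the
idempotents `e` in `K_0(Z × Z)_ℚ = CH(Z × Z)_ℚ`, for instance those of the components of
semi-orthogonal decompositions of `perf(Z)`):

* the Frobenius invariants in the `ℓ`-adic realization of `perf(A) ⊗ 𝒯` are in a unique way sums of
  products of the classes of the `D j` with the Frobenius invariants in the realization of `𝒯`;
* the noncommutative Tate conjecture holds for `perf(A) ⊗ 𝒯` if and only if it holds for `𝒯`.

Here the noncommutative Tate conjecture for `𝒯` is the statement that the Frobenius invariants in its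
realization are linear combinations of classes of elements of `K_0(𝒯)_ℚ`; over all finite extensions of
the ground field together it is equivalent to the vanishing of the groups `G_n(𝒯)` of the problem (the
theorem of Thomason and Tabuada for `Z`, and since both sides are functors on noncommutative motives).
As all `s` are allowed, the theorem holds simultaneously over all finite extensions.

Nothing is assumed about algebraic cycles on `Z` (neither a case of the conjecture of Tate nor the
finite-dimensionality of the motive of `Z`), and the exceptional families do not depend on `Z`, not even
on its dimension, nor on `𝒯`.

**(2)** Let `χ₀` be any rational polynomial of degree at most `B`, for instance the characteristic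
polynomial of Frobenius on the whole cohomology of a variety `Z₀` with total Betti number at most `B`.
With the exception of a proportion at most `C (p ^ t) ^ (-1 / 6) log (p ^ t)` of the families, **all**
varieties `Z` which are tame relative to `χ₀` are independent: this is the case if the eigenvalues of
Frobenius of `Z`, up to powers and up to a group of rank less than the `g i`, are products of rational
numbers, of roots of `χ₀` and of Weil numbers of degree less than `2 d` (`d ≥ 3`).

For example (`χ₀ = X - 1`, `d` the minimum of the `g i`): if the `g i` are three or at least five, then
for almost all families (1) applies to **all** varieties `Z`, of any dimension, with all Betti numbers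
less than `2 d`, to all products of such varieties, and to the products of these with all varieties
whose eigenvalues generate a group of rank less than `d`.

The starting file of this problem (`AlmostAllAbelianFactors`, of helper484) is about the set of all, or
of all ordinary, Weil polynomials (all or ordinary abelian varieties, with an error term
`O (q ^ (-1 / 6) log q)`) and about the `Z` whose eigenvalues generate a group of rank less than the
`g i` modulo the powers of the elements of one number field `E` given in advance, on which the constant
depends. Here the Newton polygons, or the `p`-ranks, of the abelian varieties are prescribed; the
constant is the same for all strata and all `p`, `a` and depends only on the degree of `χ₀`; and the only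
condition on `Z` in (1) is the natural condition of independence.

The idea of the proof: by a sieve (helper521, helper484, and my modules SD, SG) almost all families in
a stratum are such that each pair `α`, `q / α` of roots can be exchanged by a Galois automorphism which
fixes all the other roots of all the `f i`. Such an automorphism, applied to a relation between roots
of the `f i` and eigenvalues of `Z`, shows that a power of `α` is a product of powers of `q` and of
eigenvalues of `Z`. In a Newton stratum the coefficients of the real Weil polynomials are divisible by
powers of `p`, and the quotients run through a box with sides at least `p ^ (t / 2)` up to constants;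
the events of the sieve at the primes `ℓ ≠ p` are transported by the multiplication with the powers of
`p`.
-/

set_option autoImplicit false

namespace Pool.Agent.Results.MP_de89cc_ag.EveryCategory

open Polynomial Pool.Agent.N205.SG

open Pool.Agent.N205.SE (NCTateForIndep)

/-- `StrataFacts`: the sets of the Weil polynomials with given Newton polygon, or with Newton
polygon on or above a given one, and the sets of those of given `p`-rank, are strata. -/
theorem result :
    (∀ {I : Type} [Fintype I] (g : I → ℕ) (_ : ∀ i, 0 < g i) (d : ℕ) (_ : DimsU g d) (B : ℕ),
      ∃ C : ℝ, ∀ p a t : ℕ, p.Prime → 0 < a → 0 < t → ∀ S : I → Set ℤ[X],
        (∀ i, IsStratum p a (g i) t (S i)) →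
        (∀ i, (S i).Finite ∧ (4 ^ g i ≤ p ^ t → (S i).Nonempty)) ∧
        ({f : I → ℤ[X] | (∀ i, f i ∈ S i) ∧ ¬ NCTateForIndep (p ^ a) f}.ncard : ℝ) ≤
          C * (Real.log ((p ^ t : ℕ) : ℝ) * ((p ^ t : ℕ) : ℝ) ^ (-(1 / 6) : ℝ)) *
            ∏ i, ((S i).ncard : ℝ) ∧
        ∀ χ₀ : ℚ[X], χ₀ ≠ 0 → χ₀.natDegree ≤ B →
          ({f : I → ℤ[X] | (∀ i, f i ∈ S i) ∧ ¬ TameIndep g d (p ^ a) χ₀ f}.ncard : ℝ) ≤
            C * (Real.log ((p ^ t : ℕ) : ℝ) * ((p ^ t : ℕ) : ℝ) ^ (-(1 / 6) : ℝ)) *
              ∏ i, ((S i).ncard : ℝ)) ∧
    StrataFacts :=
  ⟨fun g hg d hd B => indep_unif g hg d hd B (fun q f => NCTateForIndep q f)
    fun _ hq x hx => Pool.Agent.N205.SE.CK.ncTate_indep g hg hq.one_lt x hx, strataFacts⟩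

end Pool.Agent.Results.MP_de89cc_ag.EveryCategory
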